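import Pool.Agent.H66.MW.Global
import Pool.Graph.R_pool_sql_team_seeded_ab47071d.TH131.WMF.HKFam

/-!
# The density of the members of a family which satisfy the `p`-adic monodromy-weight conjecture

Let `𝒳 → 𝔸^r_ℚ ∖ {Δ = 0}` be a smooth projective family. Let `S_p` be the set of the vectors `t` in
`ℤ^r` with `Δ(t) ≠ 0` such that the `p`-adic monodromy-weight conjecture holds for the variety
`𝒳_t` over `ℚ_p` (in all degrees), and `S` the set of those for which it holds at all primes `p`.

* `S_p` has a natural density `δ p` in `ℤ^r`, and `δ p = 1` for all but finitely many `p`.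
* For different primes the conditions are independent: the intersection of finitely many `S_p` has
  the density `∏ δ p`, and `S` has the density `∏ δ p`, the product over all primes.
* If the conjecture holds at `p` for one hundred percent of the integral members, it holds for ALL
  members over `ℤ_p`; if it fails for one member over `ℤ_p`, it fails for a positive proportion of
  the integral members. If it holds for one member over `ℤ_p`, it holds for a positive proportion.
* The density of `S` is one if and only if the conjecture holds for all members over `ℤ_p`, for all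
  `p`; it is positive if and only if for each `p` it holds for one member over `ℤ_p`.

The data are those of the files `HK` and `HKFam`:

* `F`, `hh`, `𝒮`, `hc`, `hw`: smooth projective varieties of bounded degree over `p`-adic fields and
  the known theorems on their cohomology.
* `𝒳`, `hk`: the family, and the local constancy of `H^w_pst`.
-/

set_option autoImplicit false

namespace Pool.Agent.Results.MP_6451f1_ag.DensityInFamilies

open Pool.Agent.TH131.WMF Pool.Agent.H66.MW

theorem isMonodromyWeightPure_same {K : Type} [Field K] [CharZero K] {A A' : WN K} {φ : Op A.toSp}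
    {φ' : Op A'.toSp} (h : A.Same A' φ φ') (q : ℕ) (w : ℤ) :
    IsMonodromyWeightPure q w φ A.N ↔ IsMonodromyWeightPure q w φ' A'.N := by
  obtain ⟨e, heN, heφ⟩ := h
  constructor
  · intro h1
    exact h1.transport e heN heφ
  · intro h1
    refine h1.transport e.symm (fun x => ?_) (fun x => ?_)
    · apply e.injective
      rw [heN, e.apply_symm_apply, e.apply_symm_apply]
    · apply e.injective
      rw [heφ, e.apply_symm_apply, e.apply_symm_apply]

/-- The densities of the sets of the integral members of a smooth projective family for which the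
`p`-adic monodromy-weight conjecture holds at one prime, at finitely many primes and at all primes.
-/
theorem result {F : LogDeRham} (hh : F.HodgeTheory) {𝒮 : HKVarieties F} (hc : 𝒮.Comparison)
    (hw : 𝒮.WeilConjectures) (𝒳 : HKFamily 𝒮) (hk : 𝒳.IsLocallyConstant) (hΔ : 𝒳.Δ ≠ 0) :
    ∃ δ : ℕ → ℝ,
      -- one prime
      (∀ (p : ℕ) [Fact p.Prime],
        HasDensity {t : Fin 𝒳.r → ℤ | IsPoint 𝒳.Δ t ∧ 𝒳.Holds p fun i => (t i : ℤ_[p])} (δ p) ∧
        (¬ p ∣ 𝒮.M₀ → δ p = 1) ∧
        (δ p = 1 ↔ ∀ x : Fin 𝒳.r → ℤ_[p], IsPoint 𝒳.Δ x → 𝒳.Holds p x) ∧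
        (0 < δ p ↔ ∃ x : Fin 𝒳.r → ℤ_[p], IsPoint 𝒳.Δ x ∧ 𝒳.Holds p x)) ∧
      -- finitely many primes
      (∀ s : Finset ℕ, (∀ p ∈ s, p.Prime) →
        HasDensity {t : Fin 𝒳.r → ℤ | IsPoint 𝒳.Δ t ∧
          ∀ (p : ℕ) [Fact p.Prime], p ∈ s → 𝒳.Holds p fun i => (t i : ℤ_[p])} (∏ p ∈ s, δ p)) ∧
      -- all primes
      HasDensity {t : Fin 𝒳.r → ℤ | IsPoint 𝒳.Δ t ∧ 𝒳.HoldsEverywhere t}
        (∏ p ∈ 𝒮.M₀.primeFactors, δ p) ∧
      (∏ p ∈ 𝒮.M₀.primeFactors, δ p = 1 ↔
        ∀ (p : ℕ) [Fact p.Prime], ∀ x : Fin 𝒳.r → ℤ_[p], IsPoint 𝒳.Δ x → 𝒳.Holds p x) ∧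
      (0 < ∏ p ∈ 𝒮.M₀.primeFactors, δ p ↔
        ∀ (p : ℕ) [Fact p.Prime], ∃ x : Fin 𝒳.r → ℤ_[p], IsPoint 𝒳.Δ x ∧ 𝒳.Holds p x) := by
  refine main hΔ (fun p _ x => 𝒳.Holds p x) ?_ 𝒮.M₀_pos ?_
  · intro p _ x hx
    obtain ⟨n, hn⟩ := hk p x hx
    refine ⟨n, fun y hy hyx => ?_⟩
    exact forall_congr' fun w => isMonodromyWeightPure_same (hn y hy hyx w) _ _
  · intro p _ hp x _ w
    exact 𝒮.mwPure hh hc hw (by rwa [𝒳.p_base p]) _ w

end Pool.Agent.Results.MP_6451f1_ag.DensityInFamilies
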